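import Pool.Agent.Y999.ST.Stm2

/-!
# Project ST, job LAW: the abstract comparison principle
-/

set_option autoImplicit false

namespace Pool.Agent.Y974.ST

open MeasureTheory ProbabilityTheory Pool.Agent.Y999.ST
open scoped ENNReal

/-! ### Exponential measures -/

theorem isProb_exp_one : IsProbabilityMeasure (expMeasure 1) :=
  isProbabilityMeasure_expMeasure one_pos

theorem isProb_clk : IsProbabilityMeasure clk := by
  have := isProb_exp_one
  unfold clk
  infer_instance

theorem measurable_gammaPDF' (a r : ℝ) : Measurable (gammaPDF a r) :=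
  (measurable_gammaPDFReal a r).ennreal_ofReal

theorem exp_ae_pos {r : ℝ} : ∀ᵐ γ ∂(expMeasure r), 0 < γ := by
  have h0 : expMeasure r (Set.Iic 0) = 0 := by
    unfold expMeasure gammaMeasure
    rw [withDensity_apply _ measurableSet_Iic]
    rw [lintegral_Iic_eq_lintegral_Iio_add_Icc _ (le_refl (0 : ℝ))]
    rw [lintegral_gammaPDF_of_nonpos (le_refl (0 : ℝ))]
    simp
  rw [ae_iff]
  convert h0 using 2
  ext x
  simp

theorem clk_ae_pos : ∀ᵐ g ∂clk, ∀ p, 0 < g p := by
  have := isProb_exp_one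
  rw [ae_all_iff]
  intro p
  have h := measurePreserving_eval_infinitePi (fun _ : ℤ × ℕ => expMeasure 1) p
  exact h.quasiMeasurePreserving.ae (exp_ae_pos (r := 1))

theorem integrable_exp_exp {r : ℝ} (hr : 0 < r) {lam : ℝ} (hl : 0 < lam) :
    Integrable (fun γ => Real.exp (-lam * γ)) (expMeasure r) := by
  have := isProbabilityMeasure_expMeasure hr
  refine Integrable.of_bound (by fun_prop) 1 ?_
  filter_upwards [exp_ae_pos (r := r)] with γ hγ
  rw [Real.norm_eq_abs, abs_of_pos (Real.exp_pos _), Real.exp_le_one_iff]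
  nlinarith

theorem integral_exp_exp {r : ℝ} (hr : 0 < r) {lam : ℝ} (hl : 0 < lam) :
    ∫ γ, Real.exp (-lam * γ) ∂(expMeasure r) = r / (r + lam) := by
  have := isProbabilityMeasure_expMeasure hr
  have hrl : 0 < r + lam := by linarith
  have h1 : ENNReal.ofReal (∫ γ, Real.exp (-lam * γ) ∂(expMeasure r)) =
      ENNReal.ofReal (r / (r + lam)) := by
    rw [ofReal_integral_eq_lintegral_ofReal (integrable_exp_exp hr hl)
      (Filter.Eventually.of_forall fun γ => (Real.exp_pos _).le)]
    unfold expMeasure gammaMeasure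
    rw [lintegral_withDensity_eq_lintegral_mul _
      (measurable_gammaPDF' 1 r) (by fun_prop)]
    have e : ∀ x, (gammaPDF 1 r * fun γ => ENNReal.ofReal (Real.exp (-lam * γ))) x =
        ENNReal.ofReal (r / (r + lam)) * exponentialPDF (r + lam) x := by
      intro x
      simp only [Pi.mul_apply]
      change exponentialPDF r x * _ = _
      rw [exponentialPDF_eq, exponentialPDF_eq, ← ENNReal.ofReal_mul (by positivity)]
      · by_cases hx : 0 ≤ x
        · simp only [hx, if_true]
          rw [← ENNReal.ofReal_mul (by positivity)]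
          congr 1
          have : Real.exp (-((r + lam) * x)) = Real.exp (-(r * x)) * Real.exp (-lam * x) := by
            rw [← Real.exp_add]; congr 1; ring
          rw [this]
          field_simp
        · simp [hx]
    rw [lintegral_congr e, lintegral_const_mul _ (show Measurable (exponentialPDF (r + lam)) from
      measurable_gammaPDF' 1 (r + lam)),
      lintegral_exponentialPDF_eq_one hrl, mul_one]
  have h2 := congrArg ENNReal.toReal h1
  rwa [ENNReal.toReal_ofReal (integral_nonneg fun γ => (Real.exp_pos _).le),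
    ENNReal.toReal_ofReal (by positivity)] at h2

/-! ### The weight -/

open Classical in
/-- `exp (- lam x)`, with value `0` at infinity. -/
noncomputable def ew (lam : ℝ) (x : ℝ≥0∞) : ℝ := if x = ⊤ then 0 else Real.exp (-lam * x.toReal)

theorem ew_nonneg (lam : ℝ) (x : ℝ≥0∞) : 0 ≤ ew lam x := by
  unfold ew; split_ifs
  · exact le_rfl
  · exact (Real.exp_pos _).le

theorem ew_le_one {lam : ℝ} (hl : 0 ≤ lam) (x : ℝ≥0∞) : ew lam x ≤ 1 := by
  unfold ew; split_ifs
  · exact zero_le_one
  · rw [Real.exp_le_one_iff]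
    have := mul_nonneg hl (ENNReal.toReal_nonneg (a := x))
    linarith

theorem ew_pos {lam : ℝ} {x : ℝ≥0∞} (hx : x ≠ ⊤) : 0 < ew lam x := by
  unfold ew; rw [if_neg hx]; exact Real.exp_pos _

theorem ew_add {lam γ : ℝ} (hγ : 0 ≤ γ) (x : ℝ≥0∞) :
    ew lam (ENNReal.ofReal γ + x) = Real.exp (-lam * γ) * ew lam x := by
  unfold ew
  by_cases hx : x = ⊤
  · simp [hx]
  · have : ENNReal.ofReal γ + x ≠ ⊤ := ENNReal.add_ne_top.2 ⟨ENNReal.ofReal_ne_top, hx⟩
    rw [if_neg this, if_neg hx, ENNReal.toReal_add ENNReal.ofReal_ne_top hx,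
      ENNReal.toReal_ofReal hγ, ← Real.exp_add]
    congr 1; ring

theorem measurable_ew (lam : ℝ) : Measurable (ew lam) := by
  unfold ew
  refine Measurable.ite (measurableSet_singleton _) measurable_const ?_
  fun_prop

section weight
variable {I : Type} [Fintype I]

/-- The weight of a family of times. -/
noncomputable def ww (lam : ℝ) (t : I → ℝ≥0∞) : ℝ := ∏ i, ew lam (t i)

theorem ww_nonneg (lam : ℝ) (t : I → ℝ≥0∞) : 0 ≤ ww lam t :=
  Finset.prod_nonneg fun _ _ => ew_nonneg _ _

theorem ww_le_one {lam : ℝ} (hl : 0 ≤ lam) (t : I → ℝ≥0∞) : ww lam t ≤ 1 :=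
  Finset.prod_le_one (fun _ _ => ew_nonneg _ _) (fun _ _ => ew_le_one hl _)

theorem ww_pos {lam : ℝ} {t : I → ℝ≥0∞} (ht : ∀ i, t i ≠ ⊤) : 0 < ww lam t :=
  Finset.prod_pos fun i _ => ew_pos (ht i)

theorem measurable_ww (lam : ℝ) : Measurable (ww lam : (I → ℝ≥0∞) → ℝ) := by
  unfold ww
  exact Finset.measurable_prod _ fun i _ => (measurable_ew lam).comp (measurable_pi_apply i)

open Classical in
/-- The shift of all the coordinates outside `h`. -/
noncomputable def sh (h : I → Prop) (γ : ℝ) (t : I → ℝ≥0∞) : I → ℝ≥0∞ :=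
  fun i => (if h i then 0 else ENNReal.ofReal γ) + t i

omit [Fintype I] in
theorem measurable_sh (h : I → Prop) :
    Measurable (fun q : ℝ × (I → ℝ≥0∞) => sh h q.1 q.2) := by
  unfold sh
  refine measurable_pi_lambda _ fun i => ?_
  by_cases hi : h i
  · simp only [hi, if_true]
    fun_prop
  · simp only [hi, if_false]
    fun_prop

theorem ww_sh {lam : ℝ} (hl : 0 ≤ lam) (h : I → Prop) {i₀ : I} (hi : ¬ h i₀) {γ : ℝ}
    (hγ : 0 ≤ γ) (t : I → ℝ≥0∞) : ww lam (sh h γ t) ≤ Real.exp (-lam * γ) * ww lam t := by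
  classical
  have e : ∀ i, ew lam (sh h γ t i) =
      (if h i then 1 else Real.exp (-lam * γ)) * ew lam (t i) := by
    intro i
    unfold sh
    by_cases hh : h i
    · simp [hh]
    · simp only [hh, if_false]; exact ew_add hγ _
  unfold ww
  simp only [e, Finset.prod_mul_distrib]
  refine mul_le_mul_of_nonneg_right ?_ (Finset.prod_nonneg fun _ _ => ew_nonneg _ _)
  have hexp : Real.exp (-lam * γ) ≤ 1 := by
    rw [Real.exp_le_one_iff]
    have := mul_nonneg hl hγ
    linarith
  rw [← Finset.mul_prod_erase Finset.univ _ (Finset.mem_univ i₀), if_neg hi]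
  refine mul_le_of_le_one_right (Real.exp_pos _).le ?_
  refine Finset.prod_le_one (fun i _ => ?_) (fun i _ => ?_)
  · split_ifs
    · exact zero_le_one
    · exact (Real.exp_pos _).le
  · split_ifs
    · exact le_rfl
    · exact hexp

end weight

/-! ### Parameter integrals -/

theorem measurable_ins (s : Finset ℤ) (k : ℤ) :
    Measurable (fun q : ℝ × (ℤ × ℕ → ℝ) => ins s k q.1 q.2) := by
  refine measurable_pi_lambda _ fun p => ?_
  unfold ins
  by_cases h1 : p.1 = k
  · simp only [h1, if_true]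
    by_cases h2 : p.2 = 0
    · simp only [h2, if_true]; exact measurable_fst
    · simp only [h2, if_false]; fun_prop
  · simp only [h1, if_false]
    by_cases h2 : p.1 ∈ s ∧ p.2 = 0
    · simp only [if_pos h2]; fun_prop
    · simp only [if_neg h2]; fun_prop

section step
variable {I : Type}

/-- The integral of `f (T g)` over the clocks. -/
noncomputable def U (T : (ℤ × ℕ → ℝ) → I → ℝ≥0∞) (f : (I → ℝ≥0∞) → ℝ) : ℝ := ∫ g, f (T g) ∂clk

theorem abs_U_le (T : (ℤ × ℕ → ℝ) → I → ℝ≥0∞) (f : (I → ℝ≥0∞) → ℝ) {K : ℝ}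
    (hK : ∀ t, |f t| ≤ K) : |U T f| ≤ K := by
  have := isProb_clk
  have h := norm_integral_le_of_norm_le_const (μ := clk) (f := fun g => f (T g)) (C := K)
    (Filter.Eventually.of_forall fun g => hK (T g))
  simpa [U] using h

theorem integrable_U_sh (T : (ℤ × ℕ → ℝ) → I → ℝ≥0∞) (hT : Measurable T)
    (h : I → Prop) (f : (I → ℝ≥0∞) → ℝ) (hf : Measurable f) {K : ℝ} (hK : ∀ t, |f t| ≤ K)
    {r : ℝ} (hr : 0 < r) :
    Integrable (fun γ => U T (fun t => f (sh h γ t))) (expMeasure r) := by
  have := isProb_clk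
  have := isProbabilityMeasure_expMeasure hr
  have hm : Measurable (fun q : ℝ × (ℤ × ℕ → ℝ) => f (sh h q.1 (T q.2))) := by
    refine hf.comp ?_
    exact (measurable_sh h).comp (measurable_fst.prodMk (hT.comp measurable_snd))
  have hs : StronglyMeasurable (fun γ : ℝ => ∫ g, f (sh h γ (T g)) ∂clk) :=
    hm.stronglyMeasurable.integral_prod_right'
  refine Integrable.of_bound hs.aestronglyMeasurable K
    (Filter.Eventually.of_forall fun γ => ?_)
  exact abs_U_le T (fun t => f (sh h γ t)) (fun t => hK _)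

theorem U_step {s : Finset ℤ} (hs : s.Nonempty)
    (hSUP : clk = (s.card : ℝ≥0∞)⁻¹ • ∑ k ∈ s,
      ((expMeasure (s.card : ℝ)).prod clk).map (fun q => ins s k q.1 q.2))
    (T : (ℤ × ℕ → ℝ) → I → ℝ≥0∞) (T' : ℤ → (ℤ × ℕ → ℝ) → I → ℝ≥0∞) (hT : Measurable T)
    (h : I → Prop)
    (hstep : ∀ k ∈ s, ∀ γ : ℝ, 0 < γ → ∀ g : ℤ × ℕ → ℝ, (∀ p, 0 < g p) →
      T (ins s k γ g) = sh h γ (T' k g))
    (f : (I → ℝ≥0∞) → ℝ) (hf : Measurable f) {K : ℝ} (hK : ∀ t, |f t| ≤ K) :
    U T f = (s.card : ℝ)⁻¹ * ∑ k ∈ s,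
      ∫ γ, U (T' k) (fun t => f (sh h γ t)) ∂(expMeasure (s.card : ℝ)) := by
  have := isProb_clk
  have hM : (0 : ℝ) < (s.card : ℝ) := by exact_mod_cast hs.card_pos
  have := isProbabilityMeasure_expMeasure hM
  have hfT : Measurable (fun g => f (T g)) := hf.comp hT
  have e1 : U T f = ∫ g, f (T g) ∂((s.card : ℝ≥0∞)⁻¹ • ∑ k ∈ s,
      ((expMeasure (s.card : ℝ)).prod clk).map (fun q => ins s k q.1 q.2)) := by
    rw [← hSUP]; rfl
  rw [e1, integral_smul_measure, integral_finsetSum_measure]
  · rw [smul_eq_mul]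
    congr 1
    · simp
    · refine Finset.sum_congr rfl fun k hk => ?_
      have hint : Integrable (fun q : ℝ × (ℤ × ℕ → ℝ) => f (T (ins s k q.1 q.2)))
          ((expMeasure (s.card : ℝ)).prod clk) := Integrable.of_bound
          (hfT.comp (measurable_ins s k)).aestronglyMeasurable K
          (Filter.Eventually.of_forall fun q => hK _)
      rw [integral_map (measurable_ins s k).aemeasurable hfT.aestronglyMeasurable,
        integral_prod _ hint]
      refine integral_congr_ae ?_
      filter_upwards [exp_ae_pos (r := (s.card : ℝ))] with γ hγ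
      refine integral_congr_ae ?_
      filter_upwards [clk_ae_pos] with g hg
      rw [hstep k hk γ hγ g hg]
  · intro k _
    have : IsProbabilityMeasure (((expMeasure (s.card : ℝ)).prod clk).map
        (fun q => ins s k q.1 q.2)) :=
      Measure.isProbabilityMeasure_map (measurable_ins s k).aemeasurable
    exact Integrable.of_bound hfT.aestronglyMeasurable K
      (Filter.Eventually.of_forall fun g => hK _)

theorem U_const {s : Finset ℤ} (hs : s.Nonempty)
    (hSUP : clk = (s.card : ℝ≥0∞)⁻¹ • ∑ k ∈ s,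
      ((expMeasure (s.card : ℝ)).prod clk).map (fun q => ins s k q.1 q.2))
    (T : (ℤ × ℕ → ℝ) → I → ℝ≥0∞) (hT : Measurable T)
    (hstep : ∀ k ∈ s, ∀ γ : ℝ, 0 < γ → ∀ g : ℤ × ℕ → ℝ, (∀ p, 0 < g p) →
      ∀ i, T (ins s k γ g) i = 0)
    (f : (I → ℝ≥0∞) → ℝ) (hf : Measurable f) {K : ℝ} (hK : ∀ t, |f t| ≤ K) :
    U T f = f (fun _ => 0) := by
  have := isProb_clk
  have hM : (0 : ℝ) < (s.card : ℝ) := by exact_mod_cast hs.card_pos
  have := isProbabilityMeasure_expMeasure hM
  have e0 : ∀ γ : ℝ, sh (fun _ : I => True) γ (fun _ => (0 : ℝ≥0∞)) = fun _ => 0 := by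
    intro γ; funext i; simp [sh]
  rw [U_step hs hSUP T (fun _ _ _ => 0) hT (fun _ => True)
    (fun k hk γ hγ g hg => by rw [e0]; funext i; exact hstep k hk γ hγ g hg i) f hf hK]
  have e1 : ∀ γ : ℝ, U (fun _ _ => (0 : ℝ≥0∞)) (fun t => f (sh (fun _ : I => True) γ t)) =
      f (fun _ => 0) := by
    intro γ
    change ∫ _, f (sh (fun _ : I => True) γ (fun _ => 0)) ∂clk = _
    rw [e0, integral_const, probReal_univ, one_smul]
  have e2 : ∀ k ∈ s, ∫ γ, U (fun _ _ => (0 : ℝ≥0∞)) (fun t => f (sh (fun _ : I => True) γ t))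
      ∂(expMeasure (s.card : ℝ)) = f (fun _ => 0) := by
    intro k _
    rw [integral_congr_ae (Filter.Eventually.of_forall e1), integral_const, probReal_univ,
      one_smul]
  rw [Finset.sum_congr rfl e2, Finset.sum_const, nsmul_eq_mul, ← mul_assoc,
    inv_mul_cancel₀ hM.ne', one_mul]

end step

/-! ### Evaluation of formal sums -/

section ev
variable {Y : Type}

/-- The value of a formal combination. -/
noncomputable def ev (V : Y → ℝ) (p : Y →₀ ℤ) : ℝ := p.sum fun y c => (c : ℝ) * V y

theorem ev_sum (V : Y → ℝ) (s : Finset ℤ) (P : ℤ → (Y →₀ ℤ)) :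
    ev V (∑ k ∈ s, P k) = ∑ k ∈ s, ev V (P k) := by
  unfold ev
  rw [← Finsupp.sum_finsetSum_index]
  · intro a; simp
  · intro a b c; push_cast; ring

theorem ev_mapDomain (V : Y → ℝ) (m : Y → Y) (p : Y →₀ ℤ) :
    ev V (Finsupp.mapDomain m p) = ev (fun y => V (m y)) p := by
  unfold ev
  rw [Finsupp.sum_mapDomain_index]
  · intro a; simp
  · intro a b c; push_cast; ring

theorem ev_congr (V V' : Y → ℝ) (p : Y →₀ ℤ) (h : ∀ y ∈ p.support, V y = V' y) :
    ev V p = ev V' p := by
  unfold ev Finsupp.sum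
  exact Finset.sum_congr rfl fun y hy => by simp only [h y hy]

theorem ev_mul (a : ℝ) (V : Y → ℝ) (p : Y →₀ ℤ) : ev (fun y => a * V y) p = a * ev V p := by
  unfold ev Finsupp.sum
  rw [Finset.mul_sum]
  exact Finset.sum_congr rfl fun y _ => by ring

theorem ev_fsum (s : Finset ℤ) (V : ℤ → Y → ℝ) (p : Y →₀ ℤ) :
    ev (fun y => ∑ k ∈ s, V k y) p = ∑ k ∈ s, ev (V k) p := by
  unfold ev Finsupp.sum
  rw [Finset.sum_comm]
  exact Finset.sum_congr rfl fun y _ => by simp only [Finset.mul_sum]

theorem ev_const (a : ℝ) (p : Y →₀ ℤ) :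
    ev (fun _ => a) p = ((p.sum fun _ c => c : ℤ) : ℝ) * a := by
  unfold ev Finsupp.sum
  push_cast
  rw [Finset.sum_mul]

theorem ev_single (V : Y → ℝ) (y : Y) : ev V (Finsupp.single y 1) = V y := by
  unfold ev
  rw [Finsupp.sum_single_index] <;> simp

theorem abs_ev_le (V : Y → ℝ) (p : Y →₀ ℤ) {K : ℝ} (hV : ∀ y, |V y| ≤ K) :
    |ev V p| ≤ K * ((p.sum fun _ c => |c| : ℤ) : ℝ) := by
  unfold ev Finsupp.sum
  push_cast
  rw [Finset.mul_sum]
  refine (Finset.abs_sum_le_sum_abs _ _).trans (Finset.sum_le_sum fun y _ => ?_)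
  rw [abs_mul, mul_comm]
  exact mul_le_mul_of_nonneg_right (hV y) (abs_nonneg _)

theorem integrable_ev {μ : Measure ℝ} (V : Y → ℝ → ℝ) (hV : ∀ y, Integrable (V y) μ)
    (p : Y →₀ ℤ) : Integrable (fun γ => ev (fun y => V y γ) p) μ := by
  unfold ev Finsupp.sum
  exact integrable_finsetSum _ fun y _ => (hV y).const_mul _

theorem integral_ev {μ : Measure ℝ} (V : Y → ℝ → ℝ) (hV : ∀ y, Integrable (V y) μ)
    (p : Y →₀ ℤ) : ∫ γ, ev (fun y => V y γ) p ∂μ = ev (fun y => ∫ γ, V y γ ∂μ) p := by
  unfold ev Finsupp.sum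
  rw [integral_finsetSum _ fun y _ => (hV y).const_mul _]
  exact Finset.sum_congr rfl fun y _ => integral_const_mul _ _

end ev

/-! ### Equality of laws from equality of weighted integrals -/

theorem law_eq {I : Type} [Fintype I] {lam : ℝ} (hl : 0 ≤ lam)
    (T T' : (ℤ × ℕ → ℝ) → I → ℝ≥0∞) (hT : Measurable T) (hT' : Measurable T')
    (hfin : ∀ᵐ g ∂clk, ∀ i, T g i ≠ ⊤) (hfin' : ∀ᵐ g ∂clk, ∀ i, T' g i ≠ ⊤)
    (hU : ∀ f : (I → ℝ≥0∞) → ℝ, Measurable f → (∀ t, |f t| ≤ 1 * ww lam t) → U T f = U T' f) :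
    clk.map T = clk.map T' := by
  have := isProb_clk
  have hW : Measurable (fun t : I → ℝ≥0∞ => ENNReal.ofReal (ww lam t)) :=
    (measurable_ww lam).ennreal_ofReal
  have key : ∀ S : (ℤ × ℕ → ℝ) → I → ℝ≥0∞, Measurable S → (∀ᵐ g ∂clk, ∀ i, S g i ≠ ⊤) →
      ((clk.map S).withDensity fun t => ENNReal.ofReal (ww lam t)).withDensity
        (fun t => (ENNReal.ofReal (ww lam t))⁻¹) = clk.map S := by
    intro S hS hSf
    refine withDensity_inv_same hW ?_ (Filter.Eventually.of_forall fun _ =>
      ENNReal.ofReal_ne_top)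
    rw [ae_map_iff hS.aemeasurable]
    · filter_upwards [hSf] with g hg
      have := ww_pos (lam := lam) hg
      simpa using this
    · exact (hW (measurableSet_singleton 0)).compl
  have key2 : ∀ S : (ℤ × ℕ → ℝ) → I → ℝ≥0∞, Measurable S → ∀ B : Set (I → ℝ≥0∞),
      MeasurableSet B → ((clk.map S).withDensity fun t => ENNReal.ofReal (ww lam t)) B =
        ENNReal.ofReal (U S (B.indicator (ww lam))) := by
    intro S hS B hB
    have : IsProbabilityMeasure (clk.map S) := Measure.isProbabilityMeasure_map hS.aemeasurable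
    have hi : Integrable (ww lam : (I → ℝ≥0∞) → ℝ) (clk.map S) := by
      refine Integrable.of_bound (measurable_ww lam).aestronglyMeasurable 1
        (Filter.Eventually.of_forall fun t => ?_)
      rw [Real.norm_eq_abs, abs_of_nonneg (ww_nonneg _ _)]
      exact ww_le_one hl t
    rw [withDensity_apply _ hB, ← ofReal_integral_eq_lintegral_ofReal hi.integrableOn
      (Filter.Eventually.of_forall fun t => ww_nonneg _ _), ← integral_indicator hB,
      integral_map hS.aemeasurable
        ((measurable_ww lam).indicator hB).aestronglyMeasurable]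
    rfl
  rw [← key T hT hfin, ← key T' hT' hfin']
  congr 1
  ext B hB
  rw [key2 T hT B hB, key2 T' hT' B hB, hU _ ((measurable_ww lam).indicator hB)]
  intro t
  rw [one_mul]
  by_cases ht : t ∈ B
  · rw [Set.indicator_of_mem ht, abs_of_nonneg (ww_nonneg _ _)]
  · rw [Set.indicator_of_notMem ht, abs_zero]
    exact ww_nonneg _ _

/-! ### The comparison principle -/

theorem law : StSUP → StLAW := by
  intro SUP s hs I _ X Y TX TY mX mY hX hY F GX GY mTX mTY gX gY sX sY hF hF1 hF5 hh
  have := isProb_clk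
  have hSUP := SUP s hs
  have hM : (0 : ℝ) < (s.card : ℝ) := by exact_mod_cast hs.card_pos
  have := isProbabilityMeasure_expMeasure hM
  set M : ℝ := (s.card : ℝ) with hMdef
  set lam : ℝ := 5 * M with hlam
  have hl : 0 < lam := mul_pos (by norm_num) hM
  have stepX : ∀ x, GX x → ∀ k ∈ s, ∀ γ : ℝ, 0 < γ → ∀ g : ℤ × ℕ → ℝ, (∀ p, 0 < g p) →
      TX x (ins s k γ g) = sh (hX x) γ (TX (mX k x) g) := by
    intro x hx k hk γ hγ g hg
    funext i
    obtain ⟨h1, h2⟩ := sX x hx k hk γ hγ g hg i
    unfold sh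
    by_cases hi : hX x i
    · rw [if_pos hi, (h1 hi).1, (h1 hi).2, add_zero]
    · rw [if_neg hi, h2 hi]
  have stepY : ∀ x, GX x → ∀ y ∈ (F x).support, ∀ k ∈ s, ∀ γ : ℝ, 0 < γ →
      ∀ g : ℤ × ℕ → ℝ, (∀ p, 0 < g p) →
      TY y (ins s k γ g) = sh (hX x) γ (TY (mY k y) g) := by
    intro x hx y hy k hk γ hγ g hg
    funext i
    obtain ⟨h1, h2⟩ := sY y (gY x hx y hy) k hk γ hγ g hg i
    unfold sh
    by_cases hi : hX x i
    · have hi' := (hh x hx y hy i).2 hi
      rw [if_pos hi, (h1 hi').1, (h1 hi').2, add_zero]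
    · have hi' : ¬ hY y i := fun h => hi ((hh x hx y hy i).1 h)
      rw [if_neg hi, h2 hi']
  -- the difference functional
  set N : X → ℝ := fun x => (((F x).sum fun _ c => |c| : ℤ) : ℝ) with hN
  have hN0 : ∀ x, 0 ≤ N x := by
    intro x
    simp only [hN]
    exact_mod_cast Finset.sum_nonneg fun y _ => abs_nonneg _
  set D : X → ((I → ℝ≥0∞) → ℝ) → ℝ := fun x f => U (TX x) f - ev (fun y => U (TY y) f) (F x)
    with hD
  -- one step of the difference functional
  have Dstep : ∀ x, GX x → ∀ f : (I → ℝ≥0∞) → ℝ, Measurable f → ∀ K : ℝ, (∀ t, |f t| ≤ K) →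
      D x f = M⁻¹ * ∑ k ∈ s, ∫ γ, D (mX k x) (fun t => f (sh (hX x) γ t)) ∂(expMeasure M) := by
    intro x hx f hf K hK
    have e1 := U_step hs hSUP (TX x) (fun k => TX (mX k x)) (mTX x) (hX x)
      (fun k hk γ hγ g hg => stepX x hx k hk γ hγ g hg) f hf hK
    have iX : ∀ x', Integrable (fun γ => U (TX x') (fun t => f (sh (hX x) γ t)))
        (expMeasure M) := fun x' => integrable_U_sh (TX x') (mTX x') (hX x) f hf hK hM
    have iY : ∀ y', Integrable (fun γ => U (TY y') (fun t => f (sh (hX x) γ t)))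
        (expMeasure M) := fun y' => integrable_U_sh (TY y') (mTY y') (hX x) f hf hK hM
    have e2 : ev (fun y => U (TY y) f) (F x) = M⁻¹ * ∑ k ∈ s,
        ∫ γ, ev (fun y => U (TY y) (fun t => f (sh (hX x) γ t))) (F (mX k x))
          ∂(expMeasure M) := by
      have a1 : ev (fun y => U (TY y) f) (F x) = ev (fun y => M⁻¹ * ∑ k ∈ s,
          ∫ γ, U (TY (mY k y)) (fun t => f (sh (hX x) γ t)) ∂(expMeasure M)) (F x) := by
        refine ev_congr _ _ _ fun y hy => ?_
        exact U_step hs hSUP (TY y) (fun k => TY (mY k y)) (mTY y) (hX x)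
          (fun k hk γ hγ g hg => stepY x hx y hy k hk γ hγ g hg) f hf hK
      rw [a1, ev_mul, ev_fsum]
      congr 1
      have a2 : ∀ k ∈ s, ev (fun y => ∫ γ, U (TY (mY k y)) (fun t => f (sh (hX x) γ t))
          ∂(expMeasure M)) (F x) = ∫ γ, ev (fun y => U (TY (mY k y))
            (fun t => f (sh (hX x) γ t))) (F x) ∂(expMeasure M) := by
        intro k _
        exact (integral_ev (fun y γ => U (TY (mY k y)) (fun t => f (sh (hX x) γ t)))
          (fun y => iY (mY k y)) (F x)).symm
      rw [Finset.sum_congr rfl a2, ← integral_finsetSum _ fun k _ =>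
        integrable_ev (fun y γ => U (TY (mY k y)) (fun t => f (sh (hX x) γ t)))
          (fun y => iY (mY k y)) (F x), ← integral_finsetSum _ fun k _ =>
        integrable_ev (fun y γ => U (TY y) (fun t => f (sh (hX x) γ t)))
          (fun y => iY y) (F (mX k x))]
      congr 1
      funext γ
      rw [← ev_sum, hF x hx, ev_sum]
      exact Finset.sum_congr rfl fun k _ =>
        (ev_mapDomain (fun y => U (TY y) (fun t => f (sh (hX x) γ t))) (mY k) (F x)).symm
    simp only [hD]
    rw [e1, e2, ← mul_sub, ← Finset.sum_sub_distrib]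
    congr 1
    refine Finset.sum_congr rfl fun k _ => ?_
    rw [integral_sub (iX _) (integrable_ev (fun y γ => U (TY y)
      (fun t => f (sh (hX x) γ t))) (fun y => iY y) (F (mX k x)))]
  -- the claim
  have claim : ∀ n : ℕ, ∀ x, GX x → ∀ K : ℝ, 0 ≤ K → ∀ f : (I → ℝ≥0∞) → ℝ, Measurable f →
      (∀ t, |f t| ≤ K * ww lam t) → |D x f| ≤ K * (1 + N x) * (5 / 6) ^ n := by
    intro n
    induction n with
    | zero =>
      intro x hx K hK f hf hfK
      have hb : ∀ t, |f t| ≤ K := fun t =>
        (hfK t).trans (mul_le_of_le_one_right hK (ww_le_one hl.le t))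
      have b1 := abs_U_le (TX x) f hb
      have b2 := abs_ev_le (fun y => U (TY y) f) (F x) (fun y => abs_U_le (TY y) f hb)
      have b3 := abs_sub (U (TX x) f) (ev (fun y => U (TY y) f) (F x))
      simp only [hD, hN, pow_zero, mul_one]
      linarith
    | succ n ih =>
      intro x hx K hK f hf hfK
      have hb : ∀ t, |f t| ≤ K := fun t =>
        (hfK t).trans (mul_le_of_le_one_right hK (ww_le_one hl.le t))
      have hpos : (0 : ℝ) ≤ (5 / 6) ^ n := by positivity
      by_cases hall : ∀ i, hX x i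
      · have u1 : U (TX x) f = f (fun _ => 0) :=
          U_const hs hSUP (TX x) (mTX x) (fun k hk γ hγ g hg i =>
            ((sX x hx k hk γ hγ g hg i).1 (hall i)).1) f hf hb
        have u2 : ev (fun y => U (TY y) f) (F x) = ev (fun _ => f (fun _ => 0)) (F x) := by
          refine ev_congr _ _ _ fun y hy => ?_
          exact U_const hs hSUP (TY y) (mTY y) (fun k hk γ hγ g hg i =>
            ((sY y (gY x hx y hy) k hk γ hγ g hg i).1 ((hh x hx y hy i).2 (hall i))).1) f hf hb
        have : D x f = 0 := by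
          simp only [hD]
          rw [u1, u2, ev_const, hF1 x hx]
          simp
        rw [this, abs_zero]
        have := hN0 x
        positivity
      · push Not at hall
        obtain ⟨i₀, hi₀⟩ := hall
        rw [Dstep x hx f hf K hb, abs_mul, abs_of_pos (inv_pos.2 hM)]
        have each : ∀ k ∈ s, |∫ γ, D (mX k x) (fun t => f (sh (hX x) γ t)) ∂(expMeasure M)| ≤
            (K * (5 * (1 + N x)) * (5 / 6) ^ n) * (1 / 6) := by
          intro k hk
          have hgm := gX x hx k hk
          have hNk : N (mX k x) ≤ 5 * N x := by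
            simp only [hN]
            exact_mod_cast hF5 x hx k hk
          have hint : Integrable (fun γ => (K * (5 * (1 + N x)) * (5 / 6) ^ n) *
              Real.exp (-lam * γ)) (expMeasure M) := (integrable_exp_exp hM hl).const_mul _
          have hle := norm_integral_le_of_norm_le (μ := expMeasure M)
            (f := fun γ => D (mX k x) (fun t => f (sh (hX x) γ t))) hint (by
              filter_upwards [exp_ae_pos (r := M)] with γ hγ
              have h1 := ih (mX k x) hgm (K * Real.exp (-lam * γ))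
                (mul_nonneg hK (Real.exp_pos _).le) (fun t => f (sh (hX x) γ t))
                (hf.comp ((measurable_sh (hX x)).comp (measurable_const.prodMk measurable_id)))
                (fun t => by
                  refine (hfK _).trans ?_
                  rw [mul_assoc]
                  exact mul_le_mul_of_nonneg_left (ww_sh hl.le (hX x) hi₀ hγ.le t) hK)
              rw [Real.norm_eq_abs]
              refine h1.trans ?_
              have h2 : 1 + N (mX k x) ≤ 5 * (1 + N x) := by linarith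
              have h3 : 0 ≤ K * Real.exp (-lam * γ) := mul_nonneg hK (Real.exp_pos _).le
              calc K * Real.exp (-lam * γ) * (1 + N (mX k x)) * (5 / 6) ^ n
                  ≤ K * Real.exp (-lam * γ) * (5 * (1 + N x)) * (5 / 6) ^ n := by gcongr
                _ = (K * (5 * (1 + N x)) * (5 / 6) ^ n) * Real.exp (-lam * γ) := by ring)
          rw [Real.norm_eq_abs, integral_const_mul, integral_exp_exp hM hl] at hle
          have e6 : M / (M + lam) = 1 / 6 := by
            rw [hlam]
            field_simp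
            ring
          rwa [e6] at hle
        calc M⁻¹ * |∑ k ∈ s, ∫ γ, D (mX k x) (fun t => f (sh (hX x) γ t)) ∂(expMeasure M)|
            ≤ M⁻¹ * ∑ k ∈ s, (K * (5 * (1 + N x)) * (5 / 6) ^ n) * (1 / 6) := by
              refine mul_le_mul_of_nonneg_left ?_ (inv_pos.2 hM).le
              exact (Finset.abs_sum_le_sum_abs _ _).trans (Finset.sum_le_sum each)
          _ = K * (1 + N x) * (5 / 6) ^ (n + 1) := by
              rw [Finset.sum_const, nsmul_eq_mul, ← hMdef, ← mul_assoc, inv_mul_cancel₀ hM.ne']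
              ring
  intro x hx y hxy hfinX hfinY
  refine law_eq hl.le (TX x) (TY y) (mTX x) (mTY y) hfinX hfinY ?_
  intro f hf hfK
  have hD0 : D x f = 0 := by
    have hlim : Filter.Tendsto (fun n : ℕ => 1 * (1 + N x) * (5 / 6 : ℝ) ^ n) Filter.atTop
        (nhds (1 * (1 + N x) * 0)) :=
      (tendsto_pow_atTop_nhds_zero_of_lt_one (by norm_num) (by norm_num)).const_mul _
    rw [mul_zero] at hlim
    have h0 : |D x f| ≤ 0 := ge_of_tendsto' hlim fun n => claim n x hx 1 zero_le_one f hf hfK
    exact abs_nonpos_iff.1 h0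
  simp only [hD] at hD0
  rw [hxy, ev_single] at hD0
  linarith

end Pool.Agent.Y974.ST
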