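import Pool.Agent.Y999.ST.Stm2

/-!
# Project ST, job ONE: one step of the clocks, measurability, finiteness
-/

set_option autoImplicit false

namespace Pool.Agent.Y974.ST

open MeasureTheory ProbabilityTheory Pool.Agent.Y999.ST
open scoped ENNReal

/-! ### The clocks after an insertion -/

theorem ins_self_zero (s : Finset ℤ) (c : ℤ) (γ : ℝ) (g : ℤ × ℕ → ℝ) :
    ins s c γ g (c, 0) = γ := by simp [ins]

theorem ins_self_succ (s : Finset ℤ) (c : ℤ) (γ : ℝ) (g : ℤ × ℕ → ℝ) (n : ℕ) :
    ins s c γ g (c, n + 1) = g (c, n) := by simp [ins]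

theorem ins_other_zero (s : Finset ℤ) (c k : ℤ) (γ : ℝ) (g : ℤ × ℕ → ℝ) (hk : k ≠ c)
    (hs : k ∈ s) : ins s c γ g (k, 0) = γ + g (k, 0) := by simp [ins, hk, hs]

theorem ins_other_succ (s : Finset ℤ) (c k : ℤ) (γ : ℝ) (g : ℤ × ℕ → ℝ) (hk : k ≠ c) (n : ℕ) :
    ins s c γ g (k, n + 1) = g (k, n + 1) := by simp [ins, hk]

theorem arrE_self_zero (s : Finset ℤ) (c : ℤ) (γ : ℝ) (g : ℤ × ℕ → ℝ) :
    arrE (fun n => ENNReal.ofReal (ins s c γ g (c, n))) 0 = ENNReal.ofReal γ := by
  simp [arrE, ins_self_zero]

theorem arrE_self_succ (s : Finset ℤ) (c : ℤ) (γ : ℝ) (g : ℤ × ℕ → ℝ) (n : ℕ) :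
    arrE (fun n => ENNReal.ofReal (ins s c γ g (c, n))) (n + 1) =
      ENNReal.ofReal γ + arrE (fun n => ENNReal.ofReal (g (c, n))) n := by
  unfold arrE
  rw [Finset.sum_range_succ' _ (n + 1), add_comm, ins_self_zero]
  congr 1
  exact Finset.sum_congr rfl fun i _ => by rw [ins_self_succ]

theorem arrE_other (s : Finset ℤ) (c k : ℤ) (γ : ℝ) (g : ℤ × ℕ → ℝ) (hk : k ≠ c) (hs : k ∈ s)
    (hγ : 0 < γ) (hg : ∀ p, 0 < g p) (n : ℕ) :
    arrE (fun n => ENNReal.ofReal (ins s c γ g (k, n))) n =
      ENNReal.ofReal γ + arrE (fun n => ENNReal.ofReal (g (k, n))) n := by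
  unfold arrE
  rw [Finset.sum_range_succ', Finset.sum_range_succ' (fun n => ENNReal.ofReal (g (k, n)))]
  simp only [ins_other_zero s c k γ g hk hs, ins_other_succ s c k γ g hk]
  rw [ENNReal.ofReal_add hγ.le (hg _).le]
  ring

theorem arrE_pos (a : ℕ → ℝ≥0∞) (ha : 0 < a 0) (n : ℕ) : 0 < arrE a n := by
  unfold arrE
  rw [Finset.sum_range_succ']
  exact lt_of_lt_of_le ha le_add_self

theorem nxt_shift (a b : ℕ → ℝ≥0∞) (c m : ℝ≥0∞) (hc : c ≠ ⊤)
    (h : ∀ n, arrE b n = c + arrE a n) : nxt b (c + m) = c + nxt a m := by
  unfold nxt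
  rw [ENNReal.add_iInf]
  refine iInf_congr fun n => ?_
  rw [ENNReal.add_iInf, h n]
  by_cases hm : m < arrE a n
  · have : c + m < c + arrE a n := (ENNReal.add_lt_add_iff_left hc).2 hm
    simp [hm, this]
  · have : ¬ c + m < c + arrE a n := fun h' => hm ((ENNReal.add_lt_add_iff_left hc).1 h')
    simp [hm, this]

theorem nxt_shift' (a b : ℕ → ℝ≥0∞) (c m : ℝ≥0∞) (hc : c ≠ ⊤) (h0 : arrE b 0 = c)
    (h : ∀ n, arrE b (n + 1) = c + arrE a n) : nxt b (c + m) = c + nxt a m := by
  unfold nxt
  rw [← inf_iInf_nat_succ, ENNReal.add_iInf]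
  have e0 : (⨅ (_ : c + m < arrE b 0), arrE b 0) = ⊤ := by
    have : ¬ c + m < arrE b 0 := by rw [h0]; exact not_lt.2 le_self_add
    simp [this]
  rw [e0, top_inf_eq]
  refine iInf_congr fun n => ?_
  rw [ENNReal.add_iInf, h n]
  by_cases hm : m < arrE a n
  · have : c + m < c + arrE a n := (ENNReal.add_lt_add_iff_left hc).2 hm
    simp [hm, this]
  · have : ¬ c + m < c + arrE a n := fun h' => hm ((ENNReal.add_lt_add_iff_left hc).1 h')
    simp [hm, this]

variable (s : Finset ℤ) (c : ℤ) (γ : ℝ) (g : ℤ × ℕ → ℝ)

/-- Delayed clocks. -/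
theorem nx_ins_add (k : ℤ) (hk : k ∈ s) (hγ : 0 < γ) (hg : ∀ p, 0 < g p) (m : ℝ≥0∞) :
    nx (ins s c γ g) k (ENNReal.ofReal γ + m) = ENNReal.ofReal γ + nx g k m := by
  unfold nx
  by_cases hkc : k = c
  · subst hkc
    exact nxt_shift' _ _ _ _ ENNReal.ofReal_ne_top (arrE_self_zero _ _ _ _)
      (arrE_self_succ _ _ _ _)
  · exact nxt_shift _ _ _ _ ENNReal.ofReal_ne_top (arrE_other s c k γ g hkc hk hγ hg)

theorem nx_ins_zero_other (k : ℤ) (hk : k ∈ s) (hkc : k ≠ c) (hγ : 0 < γ)
    (hg : ∀ p, 0 < g p) :
    nx (ins s c γ g) k 0 = ENNReal.ofReal γ + nx g k 0 := by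
  unfold nx nxt
  rw [ENNReal.add_iInf]
  refine iInf_congr fun n => ?_
  rw [ENNReal.add_iInf, arrE_other s c k γ g hkc hk hγ hg n]
  have h1 : 0 < arrE (fun n => ENNReal.ofReal (g (k, n))) n :=
    arrE_pos _ (by simpa using hg (k, 0)) n
  have h2 : 0 < ENNReal.ofReal γ + arrE (fun n => ENNReal.ofReal (g (k, n))) n :=
    lt_of_lt_of_le h1 le_add_self
  simp only [h1, h2, iInf_pos]

theorem nx_ins_zero_self (hγ : 0 < γ) :
    nx (ins s c γ g) c 0 = ENNReal.ofReal γ := by
  unfold nx nxt
  apply le_antisymm
  · refine (iInf_le _ 0).trans ?_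
    rw [arrE_self_zero]
    have : 0 < ENNReal.ofReal γ := by simpa using hγ
    simp [this]
  · refine le_iInf fun n => le_iInf fun _ => ?_
    cases n with
    | zero => rw [arrE_self_zero]
    | succ n => rw [arrE_self_succ]; exact le_self_add

theorem one : StONE := by
  intro s c γ g h h' A B C hc hγ hg
  induction B generalizing C with
  | zero => intro _ _; exact ⟨fun _ => by simp [TT], fun h0 => absurd (Or.inl rfl) h0⟩
  | succ B ihB =>
    induction C with
    | zero =>
      intro _ _
      exact ⟨fun _ => by simp [TT], fun h0 => absurd (Or.inr (Or.inl rfl)) h0⟩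
    | succ C ihC =>
      intro hs hh
      have IX := ihB (C + 1) (fun B' hB' C' hC' => hs B' (by omega) C' hC')
        (fun B' hB' C' hC' => hh B' (by omega) C' hC')
      have IY := ihC (fun B' hB' C' hC' => hs B' hB' C' (by omega))
        (fun B' hB' C' hC' => hh B' hB' C' (by omega))
      have he : A + (B : ℤ) - (C : ℤ) ∈ s := hs B (by omega) C (by omega)
      have hhe := hh B (by omega) C (by omega)
      -- the values of the primed recursion where the unprimed one vanishes
      have zX' : (B = 0 ∨ h B (C + 1)) → TT (nx g) h' A B (C + 1) = 0 := by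
        intro hz
        cases B with
        | zero => simp [TT]
        | succ B =>
          have hb : h (B + 1) (C + 1) := by
            rcases hz with hz | hz
            · omega
            · exact hz
          have hb' : h' (B + 1) (C + 1) := (hh B (by omega) C (by omega)).2 (Or.inl hb)
          simp [TT, hb']
      have zY' : (C = 0 ∨ h (B + 1) C) → TT (nx g) h' A (B + 1) C = 0 := by
        intro hz
        cases C with
        | zero => simp [TT]
        | succ C =>
          have hb : h (B + 1) (C + 1) := by
            rcases hz with hz | hz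
            · omega
            · exact hz
          have hb' : h' (B + 1) (C + 1) := (hh B (by omega) C (by omega)).2 (Or.inl hb)
          simp [TT, hb']
      constructor
      · intro hz
        have hb : h (B + 1) (C + 1) := by
          rcases hz with hz | hz | hz
          · omega
          · omega
          · exact hz
        simp [TT, hb]
      · intro hnz
        have hb : ¬ h (B + 1) (C + 1) := fun hb => hnz (Or.inr (Or.inr hb))
        have eL : TT (nx (ins s c γ g)) h A (B + 1) (C + 1) =
            nx (ins s c γ g) (A + B - C) (max (TT (nx (ins s c γ g)) h A B (C + 1))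
              (TT (nx (ins s c γ g)) h A (B + 1) C)) := by
          simp [TT, hb]
        rw [eL]
        by_cases zX : B = 0 ∨ h B (C + 1)
        · have vX : TT (nx (ins s c γ g)) h A B (C + 1) = 0 := 
            IX.1 (zX.elim Or.inl fun h1 => Or.inr (Or.inr h1))
          by_cases zY : C = 0 ∨ h (B + 1) C
          · have vY : TT (nx (ins s c γ g)) h A (B + 1) C = 0 := 
              IY.1 (zY.elim (fun h1 => Or.inr (Or.inl h1)) fun h1 => Or.inr (Or.inr h1))
            rw [vX, vY, max_self]
            by_cases hce : c = A + (B : ℤ) - (C : ℤ)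
            · have hb' : h' (B + 1) (C + 1) := hhe.2 (Or.inr ⟨hce, zX, zY⟩)
              have eR : TT (nx g) h' A (B + 1) (C + 1) = 0 := by simp [TT, hb']
              rw [eR, add_zero, ← hce]
              exact nx_ins_zero_self s c γ g hγ
            · have hb' : ¬ h' (B + 1) (C + 1) := by
                intro h1
                rcases hhe.1 h1 with h1 | h1
                · exact hb h1
                · exact hce h1.1
              have eR : TT (nx g) h' A (B + 1) (C + 1) = nx g (A + B - C) 0 := by
                simp [TT, hb', zX' zX, zY' zY]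
              rw [eR]
              exact nx_ins_zero_other s c γ g _ he (fun h1 => hce h1.symm) hγ hg
          · have vY : TT (nx (ins s c γ g)) h A (B + 1) C =
                ENNReal.ofReal γ + TT (nx g) h' A (B + 1) C := IY.2 (by
                  intro h1
                  rcases h1 with h1 | h1 | h1
                  · omega
                  · exact zY (Or.inl h1)
                  · exact zY (Or.inr h1))
            have hb' : ¬ h' (B + 1) (C + 1) := by
              intro h1
              rcases hhe.1 h1 with h1 | h1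
              · exact hb h1
              · exact zY h1.2.2
            have eR : TT (nx g) h' A (B + 1) (C + 1) = nx g (A + B - C)
                (max (TT (nx g) h' A B (C + 1)) (TT (nx g) h' A (B + 1) C)) := by
              simp [TT, hb']
            rw [eR, vX, vY, zX' zX, max_eq_right zero_le, max_eq_right zero_le]
            exact nx_ins_add s c γ g _ he hγ hg _
        · have vX : TT (nx (ins s c γ g)) h A B (C + 1) =
              ENNReal.ofReal γ + TT (nx g) h' A B (C + 1) := IX.2 (by
                intro h1
                rcases h1 with h1 | h1 | h1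
                · exact zX (Or.inl h1)
                · omega
                · exact zX (Or.inr h1))
          have hb' : ¬ h' (B + 1) (C + 1) := by
            intro h1
            rcases hhe.1 h1 with h1 | h1
            · exact hb h1
            · exact zX h1.2.1
          have eR : TT (nx g) h' A (B + 1) (C + 1) = nx g (A + B - C)
              (max (TT (nx g) h' A B (C + 1)) (TT (nx g) h' A (B + 1) C)) := by
            simp [TT, hb']
          rw [eR]
          by_cases zY : C = 0 ∨ h (B + 1) C
          · have vY : TT (nx (ins s c γ g)) h A (B + 1) C = 0 := 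
              IY.1 (zY.elim (fun h1 => Or.inr (Or.inl h1)) fun h1 => Or.inr (Or.inr h1))
            rw [vX, vY, zY' zY, max_eq_left zero_le, max_eq_left zero_le]
            exact nx_ins_add s c γ g _ he hγ hg _
          · have vY : TT (nx (ins s c γ g)) h A (B + 1) C =
                ENNReal.ofReal γ + TT (nx g) h' A (B + 1) C := IY.2 (by
                  intro h1
                  rcases h1 with h1 | h1 | h1
                  · omega
                  · exact zY (Or.inl h1)
                  · exact zY (Or.inr h1))
            rw [vX, vY, max_add_add_left]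
            exact nx_ins_add s c γ g _ he hγ hg _

/-! ### Measurability -/

theorem measurable_arrE (k : ℤ) (n : ℕ) :
    Measurable (fun g : ℤ × ℕ → ℝ => arrE (fun i => ENNReal.ofReal (g (k, i))) n) := by
  unfold arrE
  fun_prop

theorem measurable_nx (k : ℤ) (m : (ℤ × ℕ → ℝ) → ℝ≥0∞) (hm : Measurable m) :
    Measurable (fun g : ℤ × ℕ → ℝ => nx g k (m g)) := by
  classical
  have e : (fun g : ℤ × ℕ → ℝ => nx g k (m g)) = fun g => ⨅ n : ℕ,
      (if m g < arrE (fun i => ENNReal.ofReal (g (k, i))) n then
        arrE (fun i => ENNReal.ofReal (g (k, i))) n else ⊤) := by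
    funext g
    unfold nx nxt
    refine iInf_congr fun n => ?_
    by_cases hmn : m g < arrE (fun i => ENNReal.ofReal (g (k, i))) n
    · simp [hmn]
    · simp [hmn]
  rw [e]
  refine Measurable.iInf fun n => ?_
  exact Measurable.ite (measurableSet_lt hm (measurable_arrE k n)) (measurable_arrE k n)
    measurable_const

theorem meas : StMEAS := by
  intro h A B
  induction B with
  | zero => intro C; simp only [TT]; exact measurable_const
  | succ B ihB =>
    intro C
    induction C with
    | zero => simp only [TT]; exact measurable_const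
    | succ C ihC =>
      by_cases hb : h (B + 1) (C + 1)
      · simp only [TT, hb, if_true]; exact measurable_const
      · simp only [TT, hb, if_false]
        exact measurable_nx _ _ ((ihB (C + 1)).max ihC)

/-! ### Finiteness -/

theorem nx_ne_top (g : ℤ × ℕ → ℝ) (hg : ∀ p, 0 < g p)
    (hu : ∀ k (t : ℝ), ∃ n, t < arr (fun i => g (k, i)) n) (k : ℤ) (t : ℝ≥0∞) (ht : t ≠ ⊤) :
    nx g k t ≠ ⊤ := by
  obtain ⟨n, hn⟩ := hu k t.toReal
  have e : arrE (fun i => ENNReal.ofReal (g (k, i))) n =
      ENNReal.ofReal (arr (fun i => g (k, i)) n) := by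
    unfold arrE arr
    rw [ENNReal.ofReal_sum_of_nonneg (fun i _ => (hg _).le)]
  have hlt : t < arrE (fun i => ENNReal.ofReal (g (k, i))) n := by
    rw [e, ← ENNReal.ofReal_toReal ht]
    exact (ENNReal.ofReal_lt_ofReal_iff_of_nonneg ENNReal.toReal_nonneg).2 hn
  have hle : nx g k t ≤ arrE (fun i => ENNReal.ofReal (g (k, i))) n := by
    unfold nx nxt
    refine (iInf_le _ n).trans ?_
    simp [hlt]
  refine ne_top_of_le_ne_top ?_ hle
  rw [e]
  exact ENNReal.ofReal_ne_top

theorem fin : StFIN := by
  intro h A B
  induction B with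
  | zero => intro C g _ _; simp [TT]
  | succ B ihB =>
    intro C
    induction C with
    | zero => intro g _ _; simp [TT]
    | succ C ihC =>
      intro g hg hu
      by_cases hb : h (B + 1) (C + 1)
      · simp [TT, hb]
      · simp only [TT, hb, if_false]
        refine nx_ne_top g hg hu _ _ ?_
        exact max_ne_top (ihB (C + 1) g hg hu) (ihC g hg hu)

end Pool.Agent.Y974.ST
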